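import Mathlib
import Pool.Agent.TH351.Bags

/-!
MP_8d69a1_co: the Hadwiger conjecture for the path-chromatic number, for graphs with independence number at most two
and connected complement which are circulant, or vertex-transitive with `2p` or `p^2` vertices.
-/

set_option autoImplicit false

namespace Pool.Agent.Results.MP_8d69a1_co.PathSymmetric

/-- `K_k` is a minor of `G`: there are `k` pairwise disjoint vertex sets, each inducing a connected
subgraph, any two of them joined by an edge of `G`. -/
def HasCliqueMinor {V : Type} (G : SimpleGraph V) (k : ℕ) : Prop :=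
  ∃ f : Fin k → Set V,
    (∀ i, (G.induce (f i)).Connected) ∧
    (∀ i j, i ≠ j → Disjoint (f i) (f j)) ∧
    (∀ i j, i ≠ j → ∃ u ∈ f i, ∃ v ∈ f j, G.Adj u v)

/-- `G` has no three distinct pairwise nonadjacent vertices. -/
def AlphaAtMostTwo {V : Type} (G : SimpleGraph V) : Prop :=
  ∀ x y z : V, x ≠ y → y ≠ z → x ≠ z → G.Adj x y ∨ G.Adj y z ∨ G.Adj x z

/-- `G` is a circulant graph: some automorphism of `G` permutes all vertices in a single cycle. -/
def IsCirculant {V : Type} (G : SimpleGraph V) : Prop :=
  ∃ g : G ≃g G, ∀ x y : V, ∃ m : ℕ, (g : V → V)^[m] x = y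

/-- `G` is vertex-transitive. -/
def IsTransitive {V : Type} (G : SimpleGraph V) : Prop :=
  ∀ x y : V, ∃ φ : G ≃g G, φ x = y

/-- `path-χ(G) ≤ t`: the graph `G` has a path decomposition all of whose bags induce `t`-colourable
subgraphs. -/
def PathChromaticAtMost {V : Type} (G : SimpleGraph V) (t : ℕ) : Prop :=
  ∃ (m : ℕ) (B : Fin m → Set V),
    (∀ v : V, ∃ i, v ∈ B i) ∧
    (∀ u v : V, G.Adj u v → ∃ i, u ∈ B i ∧ v ∈ B i) ∧
    (∀ (v : V) (i j k : Fin m), i ≤ j → j ≤ k → v ∈ B i → v ∈ B k → v ∈ B j) ∧
    (∀ i, (G.induce (B i)).Colorable t)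

/-- Let `G` be a graph with connected complement and independence number at most two, which is a
circulant graph, or vertex-transitive with `2p` or `p^2` vertices for an odd prime `p`. If `G` has
no `K_(t+1)` minor, then its path-chromatic number is at most `t`. -/
theorem result (V : Type) [Fintype V] (G : SimpleGraph V) (hα : AlphaAtMostTwo G)
    (hconn : Gᶜ.Connected)
    (hsym : IsCirculant G ∨ (IsTransitive G ∧ ∃ p : ℕ, p.Prime ∧ p ≠ 2 ∧
      (Fintype.card V = 2 * p ∨ Fintype.card V = p ^ 2)))
    (t : ℕ) (hminor : ¬ HasCliqueMinor G (t + 1)) :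
    PathChromaticAtMost G t := by
  obtain ⟨v, h1, h2⟩ := TH351.Shift.bags_sym hα hconn hsym hminor
  exact H484R3.Circ.path_two h1 h2

end Pool.Agent.Results.MP_8d69a1_co.PathSymmetric
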