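import Pool.Agent.TH702.SG.Gen2

/-!
# The odd Hadwiger conjecture for Kneser graphs, Schrijver graphs and stable Kneser graphs

For `s ≥ 2`, `k ≥ 1` and `n ≥ s k`, the interlacing graph of the `s`-stable `k`-subsets of the
`n`-cycle has an odd `K_{n-s(k-1)}` minor.  Its branch sets are the single vertices
`P_a = {a, a+s, …, a+(k-1)s}` for `0 ≤ a < s` and, for every `m` with `s k ≤ m < n`, a path `D_m`
from `U_m = {s, 2s, …, (k-1)s, m}` to `W_m = {s-1, 2s-1, …, (k-1)s-1, m}`.

* For `s ≥ 3` (and `k ≥ 2`), `D_m` is the path `U_m, Z_m, W_m`, where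
  `Z_m = {s-2, 2s-2, …, (k-1)s-2, m-1}`.
* For `s = 2`, `D_m` is the path with the `2k-1` vertices `Y_0 = U_m, Z_1, Y_1, …, Z_{k-1},
  Y_{k-1} = W_m`, where `Y_j = {1, 3, …, 2j-1} ∪ {2j+2, …, 2k-2} ∪ {m}` and
  `Z_j = {0, 2, …, 2j-2} ∪ {2j+1, …, 2k-3} ∪ {m-1}`.

The sets `Z` have the second colour, all the others have the first one.
-/

namespace Pool.Agent.Results.MP_8d69a1_co.SchrijverKneser

open Pool.Agent.TH702.SG

/-- `path-χ(G) ≤ t`: some path-decomposition of `G` has bags that induce `t`-colourable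
subgraphs. -/
def PathChromaticLE {V : Type*} (G : SimpleGraph V) (t : ℕ) : Prop :=
  ∃ (m : ℕ) (B : Fin m → Set V),
    (∀ v : V, ∃ i, v ∈ B i) ∧
    (∀ u v : V, G.Adj u v → ∃ i, u ∈ B i ∧ v ∈ B i) ∧
    (∀ (v : V) (i j k : Fin m), i ≤ j → j ≤ k → v ∈ B i → v ∈ B k → v ∈ B j) ∧
    (∀ i, (G.induce (B i)).Colorable t)

lemma pathChromaticLE_of_hadwiger {V : Type*} {G : SimpleGraph V} (h : Hadwiger G) (t : ℕ)
    (ht : ¬ HasCliqueMinor G (t + 1)) : PathChromaticLE G t := by
  have hc : G.Colorable t := by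
    by_contra hcon
    exact ht (h t hcon)
  refine ⟨1, fun _ => Set.univ, fun v => ⟨0, Set.mem_univ v⟩,
    fun u v _ => ⟨0, Set.mem_univ u, Set.mem_univ v⟩, fun v _ _ _ _ _ _ _ => Set.mem_univ v,
    fun _ => ?_⟩
  exact hc.of_hom (SimpleGraph.Embedding.induce Set.univ).toHom

lemma between {s n k : ℕ} (hs : 2 ≤ s) (hk : 1 ≤ k) (hn : s * k ≤ n) {V : Type*}
    (G : SimpleGraph V) (hG : (interlacingGraph s n k).IsContained G)
    (hor : Nonempty (G →g pathStableKneserGraph s n k) ∨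
      (s = 2 ∧ Nonempty (G →g kneserGraph n k))) : OddHadwiger G ∧ Hadwiger G := by
  have hc : G.Colorable (n - s * (k - 1)) := by
    rcases hor with ⟨⟨g⟩⟩ | ⟨rfl, ⟨g⟩⟩
    · exact (pathStable_colorable hk hn).of_hom g
    · exact (kneser_colorable hk hn).of_hom g
  have := oddHadwiger_of G ((interlacing_odd hs hk hn).of_isContained hG) hc
  exact ⟨this, this.hadwiger⟩

lemma contained_stable (s n k : ℕ) :
    (interlacingGraph s n k).IsContained (stableKneserGraph s n k) :=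
  ⟨⟨⟨fun X => X, fun {X Y} h => ⟨h.1, h.2.1⟩⟩, fun _ _ h => h⟩⟩

lemma contained_pathStable (s n k : ℕ) :
    (interlacingGraph s n k).IsContained (pathStableKneserGraph s n k) :=
  ⟨⟨⟨fun X => ⟨X.1, X.2.1, X.2.2.1, fun x hx y hy h => (X.2.2.2 x hx y hy h).1⟩,
    fun {X Y} h => ⟨fun he => h.1 (Subtype.ext (Subtype.mk.inj he)), h.2.1⟩⟩,
    fun _ _ h => Subtype.ext (Subtype.mk.inj h)⟩⟩

lemma contained_kneser (s n k : ℕ) :
    (interlacingGraph s n k).IsContained (kneserGraph n k) :=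
  ⟨⟨⟨fun X => ⟨X.1, X.2.1, X.2.2.1⟩,
    fun {X Y} h => ⟨fun he => h.1 (Subtype.ext (Subtype.mk.inj he)), h.2.1⟩⟩,
    fun _ _ h => Subtype.ext (Subtype.mk.inj h)⟩⟩

def stableToPath (s n k : ℕ) : stableKneserGraph s n k →g pathStableKneserGraph s n k :=
  ⟨fun X => ⟨X.1, X.2.1, X.2.2.1, fun x hx y hy h => (X.2.2.2 x hx y hy h).1⟩,
    fun {X Y} h => ⟨fun he => h.1 (Subtype.ext (Subtype.mk.inj he)), h.2⟩⟩

universe u

/-- Let `s ≥ 2`, `k ≥ 1`, `n ≥ s k`.

(1) Every graph `G` that contains the interlacing graph of the `s`-stable `k`-subsets of the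
`n`-cycle has an odd `K_{n-s(k-1)}` minor.

(2) If moreover `G` has a homomorphism to the almost `s`-stable Kneser graph, or `s = 2` and `G`
has a homomorphism to the Kneser graph `KG(n,k)`, then `G` satisfies the odd Hadwiger conjecture,
the Hadwiger conjecture, and `path-χ(G) ≤ t` whenever `G` has no `K_{t+1}` minor.

(3) In particular the `s`-stable Kneser graph (the Schrijver graph `SG(n,k)` for `s = 2`), the
almost `s`-stable Kneser graph and, for `s = 2`, the Kneser graph `KG(n,k)` satisfy the odd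
Hadwiger conjecture and the Hadwiger conjecture, and `path-χ ≤ t` if they have no `K_{t+1}`
minor. -/
theorem result (s n k : ℕ) (hs : 2 ≤ s) (hk : 1 ≤ k) (hn : s * k ≤ n) :
    (∀ (V : Type u) (G : SimpleGraph V), (interlacingGraph s n k).IsContained G →
      HasOddCliqueMinor G (n - s * (k - 1))) ∧
    (∀ (V : Type u) (G : SimpleGraph V), (interlacingGraph s n k).IsContained G →
      (Nonempty (G →g pathStableKneserGraph s n k) ∨
        (s = 2 ∧ Nonempty (G →g kneserGraph n k))) → OddHadwiger G ∧ Hadwiger G ∧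
          ∀ t, ¬ HasCliqueMinor G (t + 1) → PathChromaticLE G t) ∧
    (OddHadwiger (stableKneserGraph s n k) ∧ Hadwiger (stableKneserGraph s n k) ∧
      ∀ t, ¬ HasCliqueMinor (stableKneserGraph s n k) (t + 1) →
        PathChromaticLE (stableKneserGraph s n k) t) ∧
    (OddHadwiger (pathStableKneserGraph s n k) ∧ Hadwiger (pathStableKneserGraph s n k) ∧
      ∀ t, ¬ HasCliqueMinor (pathStableKneserGraph s n k) (t + 1) →
        PathChromaticLE (pathStableKneserGraph s n k) t) ∧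
    (s = 2 → OddHadwiger (kneserGraph n k) ∧ Hadwiger (kneserGraph n k) ∧
      ∀ t, ¬ HasCliqueMinor (kneserGraph n k) (t + 1) → PathChromaticLE (kneserGraph n k) t) := by
  refine ⟨fun _ _ hG => (interlacing_odd hs hk hn).of_isContained hG, ?_, ?_, ?_, ?_⟩
  · intro V G hG hor
    have h := between hs hk hn G hG hor
    exact ⟨h.1, h.2, pathChromaticLE_of_hadwiger h.2⟩
  · have h := between hs hk hn _ (contained_stable s n k) (Or.inl ⟨stableToPath s n k⟩)
    exact ⟨h.1, h.2, pathChromaticLE_of_hadwiger h.2⟩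
  · have h := between hs hk hn _ (contained_pathStable s n k) (Or.inl ⟨SimpleGraph.Hom.id⟩)
    exact ⟨h.1, h.2, pathChromaticLE_of_hadwiger h.2⟩
  · intro h2
    have h := between hs hk hn _ (contained_kneser s n k) (Or.inr ⟨h2, ⟨SimpleGraph.Hom.id⟩⟩)
    exact ⟨h.1, h.2, pathChromaticLE_of_hadwiger h.2⟩

end Pool.Agent.Results.MP_8d69a1_co.SchrijverKneser
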